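import Pool.Agent.Helper97.Nag.Goals1

/-!
# Project NAGATA (MP_d3128a_ag): GENX
-/

set_option autoImplicit false

namespace Pool.Agent.Helper12.Nag.GENX

open Pool.Agent.Helper97.Nag

noncomputable section

/-- the group algebra -/
abbrev AA : Type := AddMonoidAlgebra ℚ ℤ

instance : IsDomain AA := NoZeroDivisors.to_isDomain _

/-- the field of fractions -/
def FF : Type := FractionRing AA

instance : Field FF := inferInstanceAs (Field (FractionRing AA))

instance : Algebra AA FF := inferInstanceAs (Algebra AA (FractionRing AA))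

instance : IsFractionRing AA FF := inferInstanceAs (IsFractionRing AA (FractionRing AA))

instance : CharZero FF :=
  have : CharZero AA := algebraRat.charZero AA
  charZero_of_injective_algebraMap (IsFractionRing.injective AA FF)

/-- the monomials -/
def U : Multiplicative ℤ →* FFˣ :=
  MonoidHom.toHomUnits (((algebraMap AA FF : AA →+* FF) :
    AA →* FF).comp (AddMonoidAlgebra.of ℚ ℤ))

theorem U_zpow (n : ℤ) : U (Multiplicative.ofAdd (1 : ℤ)) ^ n = U (Multiplicative.ofAdd n) := by
  rw [← map_zpow, ← ofAdd_zsmul, smul_eq_mul, mul_one]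

theorem indep : LinearIndependent ℚ fun g : ℤ => ((U (Multiplicative.ofAdd g) : FFˣ) : FF) := by
  have h1 : LinearIndependent ℚ fun g : ℤ => (AddMonoidAlgebra.single g (1 : ℚ) : AA) := by
    exact (AddMonoidAlgebra.basis ℤ ℚ).linearIndependent
  have h2 := h1.map' (algebraMap AA FF).toRatAlgHom.toLinearMap (by
    rw [LinearMap.ker_eq_bot]
    exact IsFractionRing.injective AA FF)
  exact h2

theorem t : S_GENX := by
  refine ⟨FF, inferInstance, inferInstance, U (Multiplicative.ofAdd (1 : ℤ)), ?_⟩
  show LinearIndependent ℚ fun n : ℤ => ((U (Multiplicative.ofAdd (1 : ℤ)) ^ n : FFˣ) : FF)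
  have h : (fun n : ℤ => ((U (Multiplicative.ofAdd (1 : ℤ)) ^ n : FFˣ) : FF)) =
      fun g : ℤ => ((U (Multiplicative.ofAdd g) : FFˣ) : FF) := by
    funext n
    rw [U_zpow]
  rw [h]
  exact indep

end

end Pool.Agent.Helper12.Nag.GENX
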